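import Mathlib

/-!
# A ZFC example of an Abelian topological group that is sequentially pseudocompact but
not selectively sequentially pseudocompact

The group is a dense subgroup `G` of the Cantor cube `2 ^ 𝔠` that projects onto every
countable subproduct (so `G` is pseudocompact, and this already gives sequential
pseudocompactness), and which has no non-trivial convergent sequences (so it fails
to be selectively sequentially pseudocompact).
-/

open Set Filter Topology Cardinal

namespace Pool.Agent.Results.MP_3c9c51_gt.BooleanExample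

/-- `X` is sequentially pseudocompact (sequentially feebly compact): for every sequence of
non-empty open sets `U n` there are an infinite set `J` of indices and a point `x` such that
every open neighbourhood `W` of `x` misses only finitely many `U n` with `n ∈ J`. -/
def SeqPseudocompact (X : Type*) [TopologicalSpace X] : Prop :=
  ∀ U : ℕ → Set X, (∀ n, IsOpen (U n)) → (∀ n, (U n).Nonempty) →
    ∃ J : Set ℕ, J.Infinite ∧ ∃ x : X, ∀ W : Set X, IsOpen W → x ∈ W →
      {n | n ∈ J ∧ W ∩ U n = ∅}.Finite

/-- `X` is selectively sequentially pseudocompact: for every sequence of non-empty open sets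
`U n` one can pick points `x n ∈ U n` such that the sequence `x` has a convergent
subsequence. -/
def SelSeqPseudocompact (X : Type*) [TopologicalSpace X] : Prop :=
  ∀ U : ℕ → Set X, (∀ n, IsOpen (U n)) → (∀ n, (U n).Nonempty) →
    ∃ x : ℕ → X, (∀ n, x n ∈ U n) ∧
      ∃ φ : ℕ → ℕ, StrictMono φ ∧ ∃ y : X, Tendsto (fun n => x (φ n)) atTop (𝓝 y)

/-- The index set of coordinates; it has the size of the continuum. -/
abbrev A : Type := (ℕ → Bool) × (ℕ → Bool)

/-- The index set for the basis of the group. -/
abbrev B : Type := (ℕ → A) × (ℕ → ZMod 2)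

/-- The underlying Boolean group. -/
abbrev V : Type := B →₀ ZMod 2

lemma mk_bool : #(ℕ → Bool) = 𝔠 := by simp

lemma mk_A : #A = 𝔠 := by
  rw [mk_prod]
  simp

lemma mk_B : #B = 𝔠 := by
  have h1 : #(ℕ → A) = 𝔠 := by
    have : #(ℕ → A) = #A ^ ℵ₀ := by simp
    rw [this, mk_A]
    simp
  have h2 : #(ℕ → ZMod 2) = 𝔠 := by
    have h3 : #(ZMod 2) = 2 := by
      have : #(ZMod 2) = (Fintype.card (ZMod 2) : Cardinal) := Cardinal.mk_fintype _
      rw [this, ZMod.card]; norm_num
    have : #(ℕ → ZMod 2) = #(ZMod 2) ^ ℵ₀ := by simp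
    rw [this, h3]
    simp
  rw [mk_prod, h1, h2]
  simp

instance : Infinite B := by
  rw [Cardinal.infinite_iff, mk_B]
  exact aleph0_le_continuum

lemma mk_V : #V = 𝔠 := by
  rw [Cardinal.mk_finsupp_of_infinite, mk_B]
  apply max_eq_left
  exact (Cardinal.lt_aleph0_of_finite (ZMod 2)).le.trans aleph0_le_continuum

lemma exists_embed : ∃ e : (ℕ → V) → (ℕ → Bool), Function.Injective e := by
  have h : #(ℕ → V) = #(ℕ → Bool) := by
    have : #(ℕ → V) = #V ^ ℵ₀ := by simp
    rw [this, mk_V, mk_bool]
    simp
  obtain ⟨e⟩ := Cardinal.eq.1 h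
  exact ⟨e, e.injective⟩

/-- An injection of the set of sequences in `V` into `ℕ → Bool`. -/
noncomputable def e : (ℕ → V) → (ℕ → Bool) := exists_embed.choose

lemma e_inj : Function.Injective e := exists_embed.choose_spec

/-- The countable set of coordinates which are used by basis vectors occurring in `S`. -/
def forb (S : ℕ → V) : Set A := ⋃ n, ⋃ β ∈ (S n).support, range β.1

lemma forb_countable (S : ℕ → V) : (forb S).Countable := by
  unfold forb
  refine countable_iUnion fun n => ?_
  refine Set.Countable.biUnion (Finset.countable_toSet _) fun β _ => countable_range _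

lemma exists_free (S : ℕ → V) : ∃ y : ℕ → Bool, (e S, y) ∉ forb S := by
  by_contra hcon
  push Not at hcon
  have h1 : Function.Injective (fun y : ℕ → Bool => ((e S, y) : A)) := by
    intro y y' h
    simpa using h
  have h2 : ((fun y : ℕ → Bool => ((e S, y) : A)) ⁻¹' forb S).Countable :=
    (forb_countable S).preimage h1
  have h3 : ((fun y : ℕ → Bool => ((e S, y) : A)) ⁻¹' forb S) = Set.univ := by
    ext y; simpa using hcon y
  rw [h3, Set.countable_univ_iff] at h2
  have h4 : #(ℕ → Bool) ≤ ℵ₀ := Cardinal.mk_le_aleph0_iff.2 h2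
  rw [mk_bool] at h4
  exact absurd h4 (not_le.2 aleph0_lt_continuum)

/-- The coordinate assigned to the sequence `S`. -/
noncomputable def al (S : ℕ → V) : A := (e S, (exists_free S).choose)

lemma al_notin (S : ℕ → V) : al S ∉ forb S := (exists_free S).choose_spec

lemma al_inj : Function.Injective al := by
  intro S T h
  apply e_inj
  exact congrArg Prod.fst h

/-- Any injective sequence in a vector space over the field with two elements admits a linear
functional taking both values infinitely often along it. -/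
lemma exists_functional (S : ℕ → V) (hS : Function.Injective S) :
    ∃ ψ : V →ₗ[ZMod 2] ZMod 2, ∀ N : ℕ, (∃ n ≥ N, ψ (S n) = 0) ∧ (∃ n ≥ N, ψ (S n) = 1) := by
  classical
  obtain ⟨b, hbS, hspan, hli⟩ := exists_linearIndependent (ZMod 2) (range S)
  have hbinf : b.Infinite := by
    intro hfin
    have hf : Module.Finite (ZMod 2) (Submodule.span (ZMod 2) b) :=
      Module.Finite.span_of_finite _ hfin
    have hf2 : Finite (Submodule.span (ZMod 2) b) := Module.finite_of_finite (ZMod 2)
    have hsub : range S ⊆ (Submodule.span (ZMod 2) b : Set V) := by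
      rw [hspan]; exact Submodule.subset_span
    have : (range S).Finite := Set.Finite.subset (Set.toFinite _) hsub
    exact (Set.infinite_range_of_injective hS) this
  obtain ⟨k, hk⟩ : ∃ k : ℕ → b, Function.Injective k :=
    ⟨hbinf.natEmbedding, (hbinf.natEmbedding).injective⟩
  -- the values on `b`
  let v : b → ZMod 2 := fun x => if ∃ m, k (2 * m) = x then 1 else 0
  let f0 : Submodule.span (ZMod 2) (range ((↑) : b → V)) →ₗ[ZMod 2] ZMod 2 :=
    (Finsupp.linearCombination (ZMod 2) v).comp hli.repr
  obtain ⟨ψ, hψ⟩ := f0.exists_extend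
  have hval : ∀ x : b, ψ x = v x := by
    intro x
    have hx : (x : V) ∈ Submodule.span (ZMod 2) (range ((↑) : b → V)) :=
      Submodule.subset_span ⟨x, rfl⟩
    have h1 : ψ x = f0 ⟨x, hx⟩ := by
      rw [← hψ]; rfl
    rw [h1]
    simp only [f0, LinearMap.comp_apply]
    have : hli.repr ⟨x, hx⟩ = Finsupp.single x 1 :=
      hli.repr_eq_single x ⟨x, hx⟩ rfl
    rw [this]
    simp
  have hnotin : ∀ (N : ℕ) (g : ℕ → ℕ), Function.Injective g →
      ∃ m, ∃ n ≥ N, S n = k (g m) := by
    intro N g hg
    have hfin : (S '' {n | n < N}).Finite := (Set.finite_lt_nat N).image S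
    have hinf : (range fun m => ((k (g m) : b) : V)).Infinite := by
      apply Set.infinite_range_of_injective
      intro m m' h
      exact hg (hk (Subtype.ext h))
    obtain ⟨z, ⟨m, rfl⟩, hz⟩ := hinf.exists_notMem_finite hfin
    have hr : ((k (g m) : b) : V) ∈ range S := hbS (k (g m)).2
    obtain ⟨n, hn⟩ := hr
    refine ⟨m, n, ?_, hn⟩
    by_contra hlt
    push Not at hlt
    exact hz ⟨n, hlt, hn⟩
  refine ⟨ψ, fun N => ⟨?_, ?_⟩⟩
  · obtain ⟨m, n, hn, hSn⟩ := hnotin N (fun m => 2 * m + 1) (fun a b h => by
      simp only at h; omega)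
    refine ⟨n, hn, ?_⟩
    rw [hSn, hval]
    simp only [v]
    rw [if_neg]
    rintro ⟨m', hm'⟩
    have := hk hm'
    omega
  · obtain ⟨m, n, hn, hSn⟩ := hnotin N (fun m => 2 * m) (fun a b h => by
      simp only at h; omega)
    refine ⟨n, hn, ?_⟩
    rw [hSn, hval]
    simp only [v]
    rw [if_pos ⟨m, rfl⟩]

open Classical in
/-- The functional used for the coordinate `α`: if `α` is assigned to an injective sequence
`S` this is a functional which does not converge along `S`, otherwise it is zero. -/
noncomputable def psi (α : A) : V →ₗ[ZMod 2] ZMod 2 :=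
  if h : ∃ S : ℕ → V, Function.Injective S ∧ al S = α then
    (exists_functional h.choose h.choose_spec.1).choose
  else 0

lemma psi_spec (S : ℕ → V) (hS : Function.Injective S) :
    ∀ N : ℕ, (∃ n ≥ N, psi (al S) (S n) = 0) ∧ (∃ n ≥ N, psi (al S) (S n) = 1) := by
  have h : ∃ T : ℕ → V, Function.Injective T ∧ al T = al S := ⟨S, hS, rfl⟩
  have h1 : h.choose = S := al_inj h.choose_spec.2
  have h2 := (exists_functional h.choose h.choose_spec.1).choose_spec
  have h3 : psi (al S) = (exists_functional h.choose h.choose_spec.1).choose := by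
    unfold psi
    rw [dif_pos h]
  rw [← h3] at h2
  intro N
  obtain ⟨⟨m, hm, hm0⟩, ⟨n, hn, hn1⟩⟩ := h2 N
  rw [congrFun h1 m] at hm0
  rw [congrFun h1 n] at hn1
  exact ⟨⟨m, hm, hm0⟩, ⟨n, hn, hn1⟩⟩

open Classical in
/-- The entry of the matrix at `(α, β)`. -/
noncomputable def entry (α : A) (β : B) : ZMod 2 :=
  if h : ∃ n, β.1 n = α then β.2 h.choose else psi α (Finsupp.single β 1)

/-- The homomorphism giving the coordinate `α`. -/
noncomputable def H (α : A) : V →ₗ[ZMod 2] ZMod 2 :=
  Finsupp.linearCombination (ZMod 2) (entry α)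

lemma H_single (α : A) (β : B) : H α (Finsupp.single β 1) = entry α β := by
  simp [H]

/-- Along the sequence `S`, the coordinate `al S` agrees with the functional `psi (al S)`. -/
lemma H_al (S : ℕ → V) (n : ℕ) : H (al S) (S n) = psi (al S) (S n) := by
  have hsum : S n = (S n).sum fun β c => Finsupp.single β c := (Finsupp.sum_single _).symm
  have hH : H (al S) (S n) = (S n).sum fun β c => c • entry (al S) β := by
    simp [H, Finsupp.linearCombination_apply]
  have hP : psi (al S) (S n) = (S n).sum fun β c => c • psi (al S) (Finsupp.single β 1) := by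
    conv_lhs => rw [hsum]
    rw [map_finsuppSum]
    apply Finsupp.sum_congr
    intro β _
    rw [← map_smul]
    simp
  rw [hH, hP]
  apply Finsupp.sum_congr
  intro β hβ
  congr 1
  unfold entry
  rw [dif_neg]
  rintro ⟨m, hm⟩
  apply al_notin S
  unfold forb
  simp only [mem_iUnion]
  exact ⟨n, β, hβ, m, hm⟩

/-- Every `0`-`1` assignment on a countable set of coordinates is realised. -/
lemma realise (C : Set A) (hC : C.Countable) (w : A → ZMod 2) :
    ∃ g : V, ∀ α ∈ C, H α g = w α := by
  classical
  rcases C.eq_empty_or_nonempty with rfl | hne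
  · exact ⟨0, by simp⟩
  obtain ⟨c, rfl⟩ := hC.exists_eq_range hne
  refine ⟨Finsupp.single (c, fun n => w (c n)) 1, ?_⟩
  rintro α ⟨n, rfl⟩
  rw [H_single]
  unfold entry
  have h : ∃ m, ((c, fun n => w (c n)) : B).1 m = c n := ⟨n, rfl⟩
  rw [dif_pos h]
  have := h.choose_spec
  simp only at this ⊢
  rw [this]

/-- The evaluation map into the Cantor cube. -/
noncomputable def Phi : V →+ (A → ZMod 2) where
  toFun g := fun α => H α g
  map_zero' := by ext α; simp
  map_add' g g' := by ext α; simp

/-- The group. -/
noncomputable def G : AddSubgroup (A → ZMod 2) := Phi.range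

lemma no_convergent (z : ℕ → G) (hz : Function.Injective z) (y : G)
    (hy : Tendsto z atTop (𝓝 y)) : False := by
  have hlift : ∀ n, ∃ g : V, Phi g = (z n : A → ZMod 2) := fun n => (z n).2
  choose S hS using hlift
  have hSinj : Function.Injective S := by
    intro m n h
    apply hz
    apply Subtype.ext
    rw [← hS m, ← hS n, h]
  have hcoord : Tendsto (fun n => (z n : A → ZMod 2) (al S)) atTop
      (𝓝 ((y : A → ZMod 2) (al S))) := by
    have h1 : Continuous fun x : G => (x : A → ZMod 2) (al S) :=
      (continuous_apply (al S)).comp continuous_subtype_val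
    exact (h1.tendsto y).comp hy
  have hev : ∀ᶠ n in atTop, (z n : A → ZMod 2) (al S) = (y : A → ZMod 2) (al S) := by
    rw [nhds_discrete] at hcoord
    exact tendsto_pure.1 hcoord
  obtain ⟨N, hN⟩ := eventually_atTop.1 hev
  have hval : ∀ n, (z n : A → ZMod 2) (al S) = psi (al S) (S n) := by
    intro n
    rw [← hS n, ← H_al]
    rfl
  obtain ⟨⟨m, hm, hm0⟩, ⟨n, hn, hn1⟩⟩ := psi_spec S hSinj N
  have e1 := hN m hm
  have e2 := hN n hn
  rw [hval, hm0] at e1
  rw [hval, hn1, ← e1] at e2
  exact one_ne_zero e2

/-- A basic neighbourhood in `G`. -/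
lemma exists_finset_nhd (U : Set G) (hU : IsOpen U) (g : G) (hg : g ∈ U) :
    ∃ F : Finset A, ∀ z : G, (∀ α ∈ F, (z : A → ZMod 2) α = (g : A → ZMod 2) α) → z ∈ U := by
  obtain ⟨O, hO, rfl⟩ := isOpen_induced_iff.1 hU
  rw [isOpen_pi_iff] at hO
  obtain ⟨F, u, hu, hsub⟩ := hO g hg
  refine ⟨F, fun z hz => ?_⟩
  apply hsub
  intro α hα
  rw [hz α hα]
  exact (hu α hα).2

lemma seqPseudocompact : SeqPseudocompact G := by
  classical
  intro U hUo hUn
  choose g hg using hUn
  choose F hF using fun n => exists_finset_nhd (U n) (hUo n) (g n) (hg n)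
  let C : Set A := ⋃ n, (F n : Set A)
  have hC : C.Countable := countable_iUnion fun n => Finset.countable_toSet _
  have : Countable C := hC.to_subtype
  obtain ⟨y, φ, hφ, hlim⟩ := SeqCompactSpace.tendsto_subseq
    (fun n => fun α : C => (g n : A → ZMod 2) α)
  have hevC : ∀ α : C, ∀ᶠ m in atTop, (g (φ m) : A → ZMod 2) α = y α := by
    intro α
    have h1 := (tendsto_pi_nhds.1 hlim) α
    rw [nhds_discrete] at h1
    exact tendsto_pure.1 h1
  -- the limit point in `G`
  obtain ⟨gx, hgx⟩ := realise C hC (fun α => if h : α ∈ C then y ⟨α, h⟩ else 0)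
  let x : G := ⟨Phi gx, gx, rfl⟩
  have hx : ∀ α : C, (x : A → ZMod 2) α = y α := by
    intro α
    have h1 := hgx α α.2
    rw [dif_pos α.2] at h1
    exact h1
  refine ⟨range φ, Set.infinite_range_of_injective hφ.injective, x, ?_⟩
  intro W hW hxW
  obtain ⟨E, hE⟩ := exists_finset_nhd W hW x hxW
  have hev : ∀ᶠ m in atTop, ∀ α ∈ E, α ∈ C → (g (φ m) : A → ZMod 2) α = (x : A → ZMod 2) α := by
    rw [Filter.eventually_all_finset]
    intro α _
    by_cases hα : α ∈ C
    · filter_upwards [hevC ⟨α, hα⟩] with m hm _
      rw [hm, ← hx ⟨α, hα⟩]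
    · exact Eventually.of_forall fun m h => absurd h hα
  obtain ⟨M, hM⟩ := eventually_atTop.1 hev
  apply Set.Finite.subset ((Set.finite_lt_nat M).image φ)
  rintro n ⟨⟨m, rfl⟩, hempty⟩
  by_contra hnot
  have hmM : M ≤ m := by
    by_contra hlt
    push Not at hlt
    exact hnot ⟨m, hlt, rfl⟩
  have hgood := hM m hmM
  obtain ⟨gz, hgz⟩ := realise ((E : Set A) ∪ (F (φ m) : Set A))
    ((Finset.countable_toSet _).union (Finset.countable_toSet _))
    (fun α => if α ∈ F (φ m) then (g (φ m) : A → ZMod 2) α else (x : A → ZMod 2) α)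
  let z : G := ⟨Phi gz, gz, rfl⟩
  have hzU : z ∈ U (φ m) := by
    apply hF
    intro α hα
    have h1 := hgz α (Or.inr hα)
    rw [if_pos hα] at h1
    exact h1
  have hzW : z ∈ W := by
    apply hE
    intro α hα
    have h1 := hgz α (Or.inl hα)
    by_cases hαF : α ∈ F (φ m)
    · rw [if_pos hαF] at h1
      have hαC : α ∈ C := mem_iUnion.2 ⟨φ m, hαF⟩
      rw [hgood α hα hαC] at h1
      exact h1
    · rw [if_neg hαF] at h1
      exact h1
  have : z ∈ W ∩ U (φ m) := ⟨hzW, hzU⟩
  rw [hempty] at this
  exact this

/-- An injective sequence of coordinates. -/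
def co (n : ℕ) : A := (fun m => decide (m = n), fun _ => false)

lemma co_inj : Function.Injective co := by
  intro m n h
  have h1 := congrFun (congrArg Prod.fst h) m
  simp [co] at h1
  exact h1

lemma not_sel : ¬ SelSeqPseudocompact G := by
  classical
  intro hsel
  let U : ℕ → Set G := fun n =>
    {x : G | (x : A → ZMod 2) (co n) = 1 ∧ ∀ i < n, (x : A → ZMod 2) (co i) = 0}
  have hcont : ∀ α : A, Continuous fun x : G => (x : A → ZMod 2) α := fun α =>
    (continuous_apply α).comp continuous_subtype_val
  have hUo : ∀ n, IsOpen (U n) := by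
    intro n
    have h1 : IsOpen {x : G | (x : A → ZMod 2) (co n) = 1} :=
      (isOpen_discrete ({1} : Set (ZMod 2))).preimage (hcont (co n))
    have h2 : IsOpen {x : G | ∀ i < n, (x : A → ZMod 2) (co i) = 0} := by
      have : {x : G | ∀ i < n, (x : A → ZMod 2) (co i) = 0} =
          ⋂ i ∈ Finset.range n, {x : G | (x : A → ZMod 2) (co i) = 0} := by
        ext x; simp
      rw [this]
      apply isOpen_biInter_finset
      intro i _
      exact (isOpen_discrete ({0} : Set (ZMod 2))).preimage (hcont (co i))
    exact h1.inter h2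
  have hUn : ∀ n, (U n).Nonempty := by
    intro n
    obtain ⟨gz, hgz⟩ := realise (range co) (countable_range _)
      (fun α => if α = co n then 1 else 0)
    refine ⟨⟨Phi gz, gz, rfl⟩, ?_, ?_⟩
    · have h1 := hgz (co n) ⟨n, rfl⟩
      rw [if_pos rfl] at h1
      exact h1
    · intro i hi
      have h1 := hgz (co i) ⟨i, rfl⟩
      rw [if_neg (fun h => hi.ne (co_inj h))] at h1
      exact h1
  obtain ⟨x, hx, φ, hφ, y, hy⟩ := hsel U hUo hUn
  have hxinj : Function.Injective x := by
    have key : ∀ m n, m < n → x m ≠ x n := by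
      intro m n hmn h
      have h1 := (hx m).1
      have h2 := (hx n).2 m hmn
      rw [h, h2] at h1
      exact zero_ne_one h1
    intro m n h
    rcases lt_trichotomy m n with hlt | heq | hgt
    · exact absurd h (key m n hlt)
    · exact heq
    · exact absurd h.symm (key n m hgt)
  exact no_convergent (fun n => x (φ n)) (hxinj.comp hφ.injective) y hy

/-- **A ZFC example.** There is a Hausdorff Abelian topological group `G` which is sequentially
pseudocompact but not selectively sequentially pseudocompact. Moreover `G` is Boolean (`g + g = 0`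
for all `g`) and no sequence of pairwise distinct points of `G` converges in `G`. -/
theorem result :
    ∃ (G : Type) (_ : AddCommGroup G) (_ : TopologicalSpace G),
      IsTopologicalAddGroup G ∧ T2Space G ∧
      (∀ g : G, g + g = 0) ∧
      (∀ (z : ℕ → G) (y : G), Function.Injective z → ¬ Tendsto z atTop (𝓝 y)) ∧
      SeqPseudocompact G ∧ ¬ SelSeqPseudocompact G := by
  refine ⟨G, inferInstance, inferInstance, inferInstance, inferInstance, ?_, ?_,
    seqPseudocompact, not_sel⟩
  · intro g
    apply Subtype.ext
    funext α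
    simp only [AddSubgroup.coe_add, Pi.add_apply, AddSubgroup.coe_zero, Pi.zero_apply]
    exact CharTwo.add_self_eq_zero _
  · intro z y hz hy
    exact no_convergent z hz y hy

end Pool.Agent.Results.MP_3c9c51_gt.BooleanExample
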